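import Pool.Agent.R992.HC.Main

/-!
# MP_1b99aa_mp, Q1: edge state curves of rational honeycomb edges need not end at band crossings

The counterexample is the edge with `(a₁₁, a₁₂) = (3, 1)` (zigzag type, band crossings at
`k = ± 2π/3`) and the half-plane `{x | 1/2 ≤ ⟪u, x⟫}`, `u = (2/√3, -4)`. For `k` near `0` the square
of the edge operator, restricted to the A-sites, has an eigenvalue below its essential spectrum
(variational argument with an explicit trial vector), and this gives an edge state curve through
`k = 0`. At `k = ± π/2` there is no edge state of any energy (an exact identity excludes embedded
eigenvalues, and an explicit sum of squares certificate excludes the others). So the maximal curve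
through `k = 0` lies in `|k| < π/2` and its ends are not band crossings.
-/

namespace Pool.Agent.Results.MP_1b99aa_mp.EdgeCurvesAvoidCrossings

/-- The answer to Q1 is negative. -/
theorem result : ¬ Pool.Agent.R992.HC.Q1 := Pool.Agent.R992.HC.not_Q1

end Pool.Agent.Results.MP_1b99aa_mp.EdgeCurvesAvoidCrossings
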